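import Pool.Agent.Work.MP_3617d5_ea.All

/-!
# MP_3617d5_al, THEOREM RX: radical extensions of Lie Engel rings, part 1

Nilpotent elements of bounded torsion, groups of products, the reduced quotient.
-/

set_option autoImplicit false

open Nat

universe u

namespace Pool.RX

open Pool.NR Pool.EA

variable {S : Type u} [Ring S]

/-! ## Products -/

theorem RX_grp {A T : AddSubgroup S} (M : ℕ) (h : ∀ l : List S, l.length = M → (∀ b ∈ l, b ∈ A) → l.prod ∈ T)
    (hT : NilT T) : NilT A := by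
  obtain ⟨M', hM'⟩ := hT
  have key : ∀ k : ℕ, ∀ l : List S, l.length = M * k → (∀ b ∈ l, b ∈ A) →
      ∃ L : List S, L.length = k ∧ (∀ b ∈ L, b ∈ T) ∧ L.prod = l.prod := by
    intro k
    induction k with
    | zero =>
      intro l hl _
      have : l = [] := List.length_eq_zero_iff.1 (by simpa using hl)
      exact ⟨[], rfl, by simp, by rw [this]⟩
    | succ k ih =>
      intro l hl hb
      have h3 : (l.drop M).length = M * k := by
        rw [List.length_drop, hl, Nat.mul_succ, Nat.add_sub_cancel]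
      obtain ⟨L, h4, h5, h6⟩ := ih (l.drop M) h3 fun b hb' => hb b (List.mem_of_mem_drop hb')
      have h10 : (l.take M).length = M := by
        rw [List.length_take, hl, Nat.mul_succ]
        omega
      refine ⟨(l.take M).prod :: L, by simp [h4], ?_, ?_⟩
      · intro b hb'
        rcases List.mem_cons.1 hb' with rfl | hb'
        · exact h _ h10 fun b hb' => hb b (List.mem_of_mem_take hb')
        · exact h5 b hb'
      · rw [List.prod_cons, h6, ← List.prod_append, List.take_append_drop]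
  refine ⟨M * M', fun l hl hb => ?_⟩
  obtain ⟨L, h1, h2, h3⟩ := key M' l hl hb
  rw [← h3]
  exact hM' L h1 h2

theorem RX_sq {A T : AddSubgroup S} (h : ∀ a ∈ A, ∀ b ∈ A, a * b ∈ T) (hT : NilT T) : NilT A := by
  refine RX_grp 2 ?_ hT
  intro l hl hb
  obtain ⟨a, b, rfl⟩ := List.length_eq_two.1 hl
  simpa using h a (hb a (by simp)) b (hb b (by simp))

theorem RX_isNilpotent {T : AddSubgroup S} (hT : NilT T) {z : S} (hz : z ∈ T) : IsNilpotent z := by
  obtain ⟨M, hM⟩ := hT
  refine ⟨M, ?_⟩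
  have h := hM (List.replicate M z) (by simp) (fun b hb => by rw [List.eq_of_mem_replicate hb]; exact hz)
  simpa using h

/-! ## The ideal of the nilpotent elements -/

/-- the elements of `E` which lie in nilpotent ideals -/
def nilp (E : AddSubgroup S) : AddSubgroup S where
  carrier := {z | z ∈ E ∧ ∃ T : AddSubgroup S, IdI T ∧ NilT T ∧ z ∈ T}
  zero_mem' := ⟨E.zero_mem, ⊥, bot_idl, bot_nil, AddSubgroup.zero_mem _⟩
  add_mem' := by
    rintro a b ⟨ha, T, h1, h2, h3⟩ ⟨hb, T', h4, h5, h6⟩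
    exact ⟨E.add_mem ha hb, T ⊔ T', NSM_id h1 h4, NSM_nil h4 h2 h5,
      AddSubgroup.add_mem _ (le_sup_left (a := T) (b := T') h3) (le_sup_right (a := T) (b := T') h6)⟩
  neg_mem' := by
    rintro a ⟨ha, T, h1, h2, h3⟩
    exact ⟨E.neg_mem ha, T, h1, h2, T.neg_mem h3⟩

theorem mem_nilp {E : AddSubgroup S} {z : S} :
    z ∈ nilp E ↔ z ∈ E ∧ ∃ T : AddSubgroup S, IdI T ∧ NilT T ∧ z ∈ T := Iff.rfl

theorem nilp_idl {E : AddSubgroup S} (hE : IdI E) : IdI (nilp E) := by
  constructor
  · rintro a b ⟨hb, T, h1, h2, h3⟩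
    exact ⟨hE.left a b hb, T, h1, h2, h1.left a b h3⟩
  · rintro a b ⟨hb, T, h1, h2, h3⟩
    exact ⟨hE.right a b hb, T, h1, h2, h1.right a b h3⟩

theorem nilp_le (E : AddSubgroup S) : nilp E ≤ E := fun _ h => h.1

theorem nilp_nil {E : AddSubgroup S} {z : S} (hz : z ∈ nilp E) : IsNilpotent z := by
  obtain ⟨-, T, -, h2, h3⟩ := hz
  exact RX_isNilpotent h2 h3

/-- nilpotent elements generate nilpotent ideals (bounded torsion, Engel condition `m < p`) -/
theorem RX_nilp {p m K : ℕ} (hp : p.Prime) (h1 : 1 ≤ m) (hm : m < p) {E : AddSubgroup S} (idl : IdI E)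
    (uni : ∀ b ∈ E, IsUnit (1 + b)) (eng : EngI m E) (hK : ∀ b ∈ E, p ^ K • b = 0) {z : S} (hz : z ∈ E)
    (hn : IsNilpotent z) : z ∈ nilp E := by
  have hg : Good3 m E := ⟨idl, uni, eng, SK3_tf hp hm E fun b hb => ⟨K, hK b hb⟩⟩
  have h4 := all_ind m (fun _ _ I => Good3 m I) (fun _ _ _ h => ⟨h.idl, h.tf⟩)
    (fun S _ I h z hz hzz => p_SQ3 p_NHT p_KG3 S m I h1 h z hz hzz)
    (fun S _ I S' _ π hπ h htf => p_QI3 S m I S' π hπ h htf) S E hg z hz hn
  obtain ⟨h5, h6, h7⟩ := p_NGI S z h4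
  exact ⟨hz, _, h5, h7, h6⟩

/-! ## The reduced quotient -/

/-- `E / N` is reduced and `g g` kills it: so does `g`. -/
theorem RX_red {N E : AddSubgroup S} (hN : IdI N) (hE : IdI E) (hsq : ∀ z ∈ E, z * z ∈ N → z ∈ N) {g : S}
    (h : ∀ y ∈ E, g * g * y ∈ N) : ∀ y ∈ E, g * y ∈ N := by
  intro y hy
  have yg : y * g ∈ E := hE.right g y hy
  have gy : g * y ∈ E := hE.left g y hy
  have a0 : (y * g) * (g * y) ∈ N := by
    have h1 := hN.left y _ (h y hy)
    have h2 : (y * g) * (g * y) = y * (g * g * y) := by simp only [mul_assoc]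
    rw [h2]
    exact h1
  have a1 : (g * y) * (y * g) ∈ N := by
    apply hsq _ (hE.right _ _ gy)
    have h1 := hN.right (y * g) _ (hN.left (g * y) _ a0)
    have h2 : (g * y) * (y * g) * ((g * y) * (y * g)) = g * y * (y * g * (g * y)) * (y * g) := by simp only [mul_assoc]
    rw [h2]
    exact h1
  have b : y * y * g ∈ N := by
    apply hsq _ (hE.right g _ (hE.left y _ hy))
    have h1 := hN.left (y * y) _ a1
    have h2 : y * y * g * (y * y * g) = y * y * (g * y * (y * g)) := by simp only [mul_assoc]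
    rw [h2]
    exact h1
  have c : y * g * y ∈ N := by
    apply hsq _ (hE.left _ _ hy)
    have h1 := hN.right y _ (hN.left (y * g) _ b)
    have h2 : y * g * y * (y * g * y) = y * g * (y * y * g) * y := by simp only [mul_assoc]
    rw [h2]
    exact h1
  apply hsq _ gy
  have h1 := hN.left g _ c
  have h2 : g * y * (g * y) = g * (y * g * y) := by simp only [mul_assoc]
  rw [h2]
  exact h1

theorem RX_red_pow {N E : AddSubgroup S} (hN : IdI N) (hE : IdI E) (hsq : ∀ z ∈ E, z * z ∈ N → z ∈ N) {g : S} (j : ℕ)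
    (h : ∀ y ∈ E, g ^ 2 ^ j * y ∈ N) : ∀ y ∈ E, g * y ∈ N := by
  induction j with
  | zero => simpa using h
  | succ j ih =>
    apply ih
    apply RX_red hN hE hsq
    intro y hy
    have h1 : g ^ 2 ^ j * g ^ 2 ^ j = g ^ 2 ^ (j + 1) := by
      rw [← pow_add]
      congr 1
      rw [pow_succ]
      omega
    rw [h1]
    exact h y hy

/-- modulo the nilpotent elements of `E`, an element of order `p ^ e` acts trivially on `E` -/
theorem RX_act {p K e : ℕ} (hp : p.Prime) {E : AddSubgroup S} (idl : IdI E) (hK : ∀ b ∈ E, p ^ K • b = 0)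
    (hnil : ∀ z ∈ E, IsNilpotent z → z ∈ nilp E) (x : Sˣ) (hx : x ^ p ^ e = 1) :
    ∀ y ∈ E, y * (x : S) - (x : S) * y ∈ nilp E := by
  have hN := nilp_idl idl
  have hsq : ∀ z ∈ E, z * z ∈ nilp E → z ∈ nilp E := by
    intro z hz hzz
    refine hnil z hz ?_
    obtain ⟨k, hk⟩ := nilp_nil hzz
    exact ⟨2 * k, by rw [pow_mul, pow_two, hk]⟩
  have hpE : ∀ y ∈ E, p • y ∈ nilp E := by
    intro y hy
    refine hnil _ (E.nsmul_mem hy p) ⟨K + 1, ?_⟩
    have h1 : y ^ (K + 1) ∈ E := by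
      rw [pow_succ]
      exact idl.left _ _ hy
    rw [smul_pow, pow_succ p, mul_comm, mul_smul, hK _ h1, smul_zero]
  set h : S := (x : S) - 1 with hh
  have hxh : (x : S) = h + 1 := by rw [hh]; abel
  have hq : ∀ y ∈ E, h ^ p ^ e * y ∈ nilp E := by
    intro y hy
    obtain ⟨r, hr⟩ := Commute.exists_add_pow_prime_pow_eq hp (Commute.one_right h) e
    have h1 : (h + 1) ^ p ^ e = 1 := by
      rw [← hxh, ← Units.val_pow_eq_pow_val, hx, Units.val_one]
    have h2 : h ^ p ^ e = - ((p : S) * (h * 1 * r)) := by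
      rw [h1, one_pow] at hr
      have h3 : h ^ p ^ e + (p : S) * h * 1 * r = 0 := by
        have h4 := hr.symm
        calc h ^ p ^ e + (p : S) * h * 1 * r = (h ^ p ^ e + 1 + (p : S) * h * 1 * r) - 1 := by abel
          _ = 0 := by rw [h4]; simp
      rw [eq_neg_iff_add_eq_zero, ← h3]
      simp only [mul_assoc]
    have h5 : h ^ p ^ e * y = - (p • (h * 1 * r * y)) := by
      rw [h2, neg_mul, nsmul_eq_mul]
      simp only [mul_assoc]
    rw [h5]
    exact (nilp E).neg_mem (hpE _ (idl.left _ _ hy))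
  have hpow : ∀ y ∈ E, h ^ 2 ^ (p ^ e) * y ∈ nilp E := by
    intro y hy
    have h1 : p ^ e ≤ 2 ^ (p ^ e) := Nat.lt_two_pow_self.le
    have h2 : h ^ 2 ^ (p ^ e) = h ^ (2 ^ (p ^ e) - p ^ e) * h ^ p ^ e := by
      rw [← pow_add]
      congr 1
      omega
    rw [h2, mul_assoc]
    exact hN.left _ _ (hq y hy)
  have hl : ∀ y ∈ E, h * y ∈ nilp E := RX_red_pow hN idl hsq _ hpow
  have hr : ∀ y ∈ E, y * h ∈ nilp E := by
    intro y hy
    apply hsq _ (idl.right _ _ hy)
    have h1 := hN.right h _ (hN.left y _ (hl y hy))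
    have h2 : y * h * (y * h) = y * (h * y) * h := by simp only [mul_assoc]
    rw [h2]
    exact h1
  intro y hy
  have h1 : y * (x : S) - (x : S) * y = y * h - h * y := by
    rw [hh]
    noncomm_ring
  rw [h1]
  exact (nilp E).sub_mem (hr y hy) (hl y hy)

end Pool.RX
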