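import Pool.Agent.Work.MP_3617d5_rx.Basic

/-!
# MP_3617d5_al, THEOREM RX: radical extensions of Lie Engel rings, part 2

`S` a ring with identity, `I` an ideal contained in the Jacobson radical, `S / I` Lie `m`-Engel, and the Engel law
`[u, v, .., v] = 1` for the units `u ∈ 1 + I` and `v ∈ (1 + I) ∪ f(G)`. A unit `x` of order `p ^ e` (in `f(G)`) is central modulo a
nilpotent ideal of `S`.
-/

set_option autoImplicit false

open Nat

universe u

namespace Pool.RX

open Pool.NR Pool.EA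

section
variable {S : Type u} [Ring S]

/-! ## Inner automorphisms -/

/-- the inner automorphism `s ↦ x⁻¹ s x` -/
def inn (x : Sˣ) : RingAut S :=
  { toFun := fun s => ((x⁻¹ : Sˣ) : S) * s * (x : S)
    invFun := fun s => (x : S) * s * ((x⁻¹ : Sˣ) : S)
    left_inv := fun s => by simp [mul_assoc]
    right_inv := fun s => by simp [mul_assoc]
    map_mul' := fun a b => by simp [mul_assoc]
    map_add' := fun a b => by simp only [mul_add, add_mul] }

theorem inn_apply (x : Sˣ) (s : S) : inn x s = ((x⁻¹ : Sˣ) : S) * s * (x : S) := rfl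

theorem inn_pow (x : Sˣ) (j : ℕ) : (inn x) ^ j = inn (x ^ j) := by
  induction j with
  | zero =>
    apply RingEquiv.ext
    intro s
    rw [inn_apply, pow_zero, pow_zero, RingAut.one_apply]
    simp
  | succ j ih =>
    apply RingEquiv.ext
    intro s
    rw [pow_succ, RingAut.mul_apply, ih, inn_apply, inn_apply, inn_apply, pow_succ' x, mul_inv_rev, Units.val_mul, Units.val_mul]
    simp only [mul_assoc]

theorem inn_ord (x : Sˣ) (q : ℕ) (hx : x ^ q = 1) (b : S) : ((inn x) ^ q) b = b := by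
  rw [inn_pow, hx, inn_apply]
  simp

/-- the inner automorphism by `x` on an ideal `N` contained in `I` -/
theorem inn_good {m : ℕ} {I N : AddSubgroup S} (uni : ∀ b ∈ I, IsUnit (1 + b)) (eng : EngI m I) (x : Sˣ)
    (hA : ∀ j : ℕ, ∀ u : Sˣ, (u : S) - 1 ∈ I → (fun z : Sˣ => z⁻¹ * (x ^ j)⁻¹ * z * x ^ j)^[m] u = 1)
    (idl : IdI N) (hNI : N ≤ I) : GoodB m N (inn x) := by
  refine ⟨idl, fun b hb => uni b (hNI hb), fun u v hu hv => eng u v (hNI hu) (hNI hv), ?_, ?_⟩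
  · intro b
    rw [inn_apply]
    constructor
    · intro h
      have h1 := idl.right ((x⁻¹ : Sˣ) : S) _ (idl.left (x : S) _ h)
      simpa [mul_assoc] using h1
    · intro h
      exact idl.right _ _ (idl.left _ _ h)
  · intro j u hu
    have h1 : (fun z : Sˣ => z⁻¹ * Units.map (((inn x ^ j : RingAut S) : S →+* S) : S →* S) z) =
        fun z : Sˣ => z⁻¹ * (x ^ j)⁻¹ * z * x ^ j := by
      funext z
      have h2 : Units.map (((inn x ^ j : RingAut S) : S →+* S) : S →* S) z = (x ^ j)⁻¹ * z * x ^ j := by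
        apply Units.ext
        rw [Units.coe_map]
        change (inn x ^ j) (z : S) = _
        rw [inn_pow, inn_apply]
        simp
      rw [h2]
      simp only [mul_assoc]
    rw [h1]
    exact hA j u (hNI hu)

/-! ## The derivation `s ↦ s x - x s` -/

/-- the derivation `s ↦ s x - x s` -/
def dv (x : S) : S →+ S := AddMonoidHom.mulRight x - AddMonoidHom.mulLeft x

theorem dv_apply (x s : S) : dv x s = s * x - x * s := rfl

/-- the ideal generated by the `s x - x s` -/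
def DD (x : S) : AddSubgroup S := idg (dv x).range

theorem DD_idl (x : S) : IdI (DD x) := idg_idl _

theorem DD_mem (x s : S) : s * x - x * s ∈ DD x := le_idg _ ⟨s, rfl⟩

theorem DD_mul {x : S} {X T : AddSubgroup S} (hX : IdI X) (hT : IdI T) (h : ∀ y ∈ X, y * x - x * y ∈ T) :
    ∀ y ∈ X, ∀ d ∈ DD x, y * d ∈ T := by
  intro y hy d hd
  refine idg_ind (P := fun d => y * d ∈ T) ?_ ?_ ?_ ?_ hd
  · rw [mul_zero]
    exact T.zero_mem
  · intro a b ha hb
    rw [mul_add]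
    exact T.add_mem ha hb
  · intro a ha
    rw [mul_neg]
    exact T.neg_mem ha
  · rintro a _ ⟨s, rfl⟩ b
    have h1 : y * (a * dv x s * b) = ((y * a * s) * x - x * (y * a * s)) * b - ((y * a) * x - x * (y * a)) * (s * b) := by
      rw [dv_apply]
      noncomm_ring
    rw [h1]
    exact T.sub_mem (hT.right _ _ (h _ (hX.right _ _ (hX.right _ _ hy)))) (hT.right _ _ (h _ (hX.right _ _ hy)))

/-- **The step**: if the derivation maps the ideal `X` into a nilpotent ideal then `X ⊓ D` is nilpotent. -/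
theorem DD_step {x : S} {X T : AddSubgroup S} (hX : IdI X) (hT : IdI T) (hn : NilT T) (h : ∀ y ∈ X, y * x - x * y ∈ T) :
    NilT (X ⊓ DD x) :=
  RX_sq (fun a ha b hb => DD_mul hX hT h a ha.1 b hb.2) hn

theorem inf_idl {A B : AddSubgroup S} (hA : IdI A) (hB : IdI B) : IdI (A ⊓ B) :=
  ⟨fun a b hb => ⟨hA.left a b hb.1, hB.left a b hb.2⟩, fun a b hb => ⟨hA.right a b hb.1, hB.right a b hb.2⟩⟩

/-- the elements of `I` killed by `N` -/
def tors (I : AddSubgroup S) (N : ℕ) : AddSubgroup S := I ⊓ (nsmulAddMonoidHom (α := S) N).ker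

theorem mem_tors {I : AddSubgroup S} {N : ℕ} {b : S} : b ∈ tors I N ↔ b ∈ I ∧ N • b = 0 := Iff.rfl

theorem tors_idl {I : AddSubgroup S} (hI : IdI I) (N : ℕ) : IdI (tors I N) := by
  constructor
  · rintro a b hb
    obtain ⟨h1, h2⟩ := mem_tors.1 hb
    exact mem_tors.2 ⟨hI.left a b h1, by rw [← mul_smul_comm, h2, mul_zero]⟩
  · rintro a b hb
    obtain ⟨h1, h2⟩ := mem_tors.1 hb
    exact mem_tors.2 ⟨hI.right a b h1, by rw [← smul_mul_assoc, h2, zero_mul]⟩

/-! ## Inside `I` -/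

/-- `I ⊓ D` is nilpotent. -/
theorem RX_inner {p m e : ℕ} (hp : p.Prime) (h1 : 1 ≤ m) (hm : m < p) {I : AddSubgroup S} (idl : IdI I)
    (uni : ∀ b ∈ I, IsUnit (1 + b)) (eng : EngI m I) (x : Sˣ)
    (hA : ∀ j : ℕ, ∀ u : Sˣ, (u : S) - 1 ∈ I → (fun z : Sˣ => z⁻¹ * (x ^ j)⁻¹ * z * x ^ j)^[m] u = 1)
    (hx : x ^ p ^ e = 1) : NilT (I ⊓ DD (x : S)) := by
  have hconj : ∀ b : S, b * (x : S) - (x : S) * b = (x : S) * (inn x b - b) := by
    intro b
    rw [inn_apply, mul_sub, ← mul_assoc, ← mul_assoc, Units.mul_inv, one_mul]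
  obtain ⟨K, hK⟩ := ea_UNB S m p e I (inn x) (inn_good uni eng x hA idl le_rfl) fun b _ => inn_ord x _ hx b
  set E := tors I (p ^ K) with hE
  have hEid : IdI E := tors_idl idl _
  have hEI : E ≤ I := fun b hb => (mem_tors.1 hb).1
  have hEK : ∀ b ∈ E, p ^ K • b = 0 := fun b hb => (mem_tors.1 hb).2
  have hIE : ∀ y ∈ I, y * (x : S) - (x : S) * y ∈ E := by
    intro y hy
    refine mem_tors.2 ⟨I.sub_mem (idl.right _ _ hy) (idl.left _ _ hy), ?_⟩
    rw [hconj, ← mul_smul_comm, hK y hy, mul_zero]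
  have hnil : ∀ z ∈ E, IsNilpotent z → z ∈ nilp E := fun z hz hn =>
    RX_nilp hp h1 hm hEid (fun b hb => uni b (hEI hb)) (fun u v hu hv => eng u v (hEI hu) (hEI hv)) hEK hz hn
  set N := nilp E with hN
  have hNid : IdI N := nilp_idl hEid
  have hEN : ∀ y ∈ E, y * (x : S) - (x : S) * y ∈ N := RX_act hp hEid hEK hnil x hx
  obtain ⟨T, t1, t2, t3, -, t5⟩ := ea_GCH S m p e N (inn x) h1 hp hm
    (inn_good uni eng x hA hNid fun b hb => hEI (nilp_le E hb)) (fun b hb => nilp_nil hb) fun b _ => inn_ord x _ hx b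
  have hNT : ∀ y ∈ N, y * (x : S) - (x : S) * y ∈ T := by
    intro y hy
    rw [hconj]
    refine t1.left _ _ ?_
    have h2 := t5 y hy
    rwa [dl_one] at h2
  have s1 : NilT (N ⊓ DD (x : S)) := DD_step hNid t1 t3 hNT
  have s2 : NilT (E ⊓ DD (x : S)) :=
    DD_step hEid (inf_idl hNid (DD_idl _)) s1 fun y hy => ⟨hEN y hy, DD_mem _ y⟩
  exact DD_step idl (inf_idl hEid (DD_idl _)) s2 fun y hy => ⟨hIE y hy, DD_mem _ y⟩

end

/-! ## Modulo `I` -/

/-- Lie Engel rings: the elements `s x - x s` lie in a nilpotent ideal. -/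
theorem RX_lie {p m e : ℕ} (hp : p.Prime) (h1 : 1 ≤ m) (h2 : m < p)
    (S : Type u) [Ring S] (h3 : LieEngel m S) (x : Sˣ) (hx : x ^ p ^ e = 1) :
    ∃ J : AddSubgroup S, IdI J ∧ NilT J ∧ ∀ s : S, s * (x : S) - (x : S) * s ∈ J := by
  have hK := p_LIE p_LDE S m (p ^ e) h3 x hx
  rw [← pow_mul] at hK
  set K := e * m with hKdef
  obtain ⟨S', hS', π, hπ, hker⟩ := p_QUO S (SK4_T S (p ^ K)) (SK4_id S _)
  have hpk : ((p : ℕ) : S') ^ K = 0 := by
    have h5 : π ((p ^ K : ℕ) • (1 : S)) = 0 := (hker _).2 (SK4_mem.2 ⟨1, rfl⟩)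
    rw [map_nsmul, map_one, nsmul_one, Nat.cast_pow] at h5
    exact h5
  have hL' : LieEngel m S' := by
    intro a' b'
    obtain ⟨a, rfl⟩ := hπ a'
    obtain ⟨b, rfl⟩ := hπ b'
    rw [← QIL_iter, h3 a b, map_zero]
  set x' : S'ˣ := Units.map (π : S →* S') x with hx'
  have hx1 : x' ^ p ^ e = 1 := by rw [hx', ← map_pow, hx, map_one]
  have hval : (x' : S') = π (x : S) := rfl
  have hg : Good2 m (⊤ : AddSubgroup S') := ⟨⟨fun _ _ _ => trivial, fun _ _ _ => trivial⟩, hL', SK_tf hp h2 hpk ⊤⟩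
  have h4 := all_ind m (fun _ _ I => Good2 m I) (fun _ _ _ h => ⟨h.idl, h.tf⟩)
    (fun S _ I h z hz hzz => p_SQL p_NHT p_KLI S m I h1 h z hz hzz)
    (fun S _ I S' _ π hπ h htf => p_QIL S m I S' π hπ h htf) S' ⊤ hg ((x' : S') - 1) trivial
    (p_UNP S' p K e hp hpk x' hx1)
  obtain ⟨h5, h6, h7⟩ := p_NGI S' _ h4
  rw [hval] at h5 h6 h7
  obtain ⟨J, j1, j2, j3⟩ := p_JLM S S' π (p ^ K) (x : S) Set.univ _ (fun a ha => SK4_mem.1 ((hker a).1 ha)) h5 h7 h6
    (fun s _ => hK s)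
  exact ⟨J, j1, j2, fun s => j3 s (Set.mem_univ _)⟩

/-- a power of `D` lies in `I` -/
theorem RX_outer {p m e : ℕ} (hp : p.Prime) (h1 : 1 ≤ m) (h2 : m < p)
    (S : Type u) [Ring S] (I : AddSubgroup S) (idl : IdI I)
    (hL : ∀ a b : S, (fun z : S => z * b - b * z)^[m] a ∈ I) (x : Sˣ) (hx : x ^ p ^ e = 1) :
    ∃ M : ℕ, ∀ l : List S, l.length = M → (∀ b ∈ l, b ∈ DD (x : S)) → l.prod ∈ I := by
  obtain ⟨S', hS', π, hπ, hker⟩ := p_QUO S I idl
  have hL' : LieEngel m S' := by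
    intro a' b'
    obtain ⟨a, rfl⟩ := hπ a'
    obtain ⟨b, rfl⟩ := hπ b'
    rw [← QIL_iter]
    exact (hker _).2 (hL a b)
  obtain ⟨J, j1, j2, j3⟩ := RX_lie hp h1 h2 S' hL' (Units.map (π : S →* S') x) (e := e) (by rw [← map_pow, hx, map_one])
  obtain ⟨M, hM⟩ := j2
  refine ⟨M, fun l hl hb => ?_⟩
  have hJ' : IdI (J.comap (π : S →+ S')) := by
    constructor
    · intro a b hb
      change π (a * b) ∈ J
      rw [map_mul]
      exact j1.left _ _ hb
    · intro a b hb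
      change π (b * a) ∈ J
      rw [map_mul]
      exact j1.right _ _ hb
  have hD : DD (x : S) ≤ J.comap (π : S →+ S') := by
    refine idg_le hJ' ?_
    rintro _ ⟨s, rfl⟩
    change π (dv (x : S) s) ∈ J
    rw [dv_apply, map_sub, map_mul, map_mul]
    exact j3 (π s)
  have h5 := hM (l.map π) (by rw [List.length_map, hl]) (by
    intro b' hb'
    obtain ⟨b, hb1, rfl⟩ := List.mem_map.1 hb'
    exact hD (hb b hb1))
  rw [← hker, map_list_prod]
  exact h5

/-- **The main lemma**: the ideal generated by the `s x - x s` is nilpotent. -/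
theorem RX_core {p m e : ℕ} (hp : p.Prime) (h1 : 1 ≤ m) (hm : m < p) (S : Type u) [Ring S] (I : AddSubgroup S) (idl : IdI I)
    (uni : ∀ b ∈ I, IsUnit (1 + b)) (eng : EngI m I)
    (hL : ∀ a b : S, (fun z : S => z * b - b * z)^[m] a ∈ I) (x : Sˣ)
    (hA : ∀ j : ℕ, ∀ u : Sˣ, (u : S) - 1 ∈ I → (fun z : Sˣ => z⁻¹ * (x ^ j)⁻¹ * z * x ^ j)^[m] u = 1)
    (hx : x ^ p ^ e = 1) : NilT (DD (x : S)) := by
  obtain ⟨M, hM⟩ := RX_outer hp h1 hm S I idl hL x hx
  have hin := RX_inner hp h1 hm idl uni eng x hA hx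
  refine RX_grp (M + 1) (T := I ⊓ DD (x : S)) ?_ hin
  intro l hl hb
  obtain ⟨b, l', rfl⟩ := List.exists_cons_of_length_eq_add_one hl
  have hl' : l'.length = M := by simpa using hl
  rw [List.prod_cons]
  exact ⟨idl.left _ _ (hM l' hl' fun c hc => hb c (List.mem_cons_of_mem _ hc)),
    (DD_idl (x : S)).right _ _ (hb b List.mem_cons_self)⟩

/-- a soluble normal subgroup of the group of units which contains `x` -/
theorem RX_sol {S : Type u} [Ring S] (x : Sˣ) (h : NilT (DD (x : S))) :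
    ∃ C : Subgroup Sˣ, C.Normal ∧ Group.IsSolvable C ∧ x ∈ C := by
  obtain ⟨H, h8, h9, h10⟩ := p_GEN S (DD (x : S)) (DD_idl _) h
  refine p_GRC Sˣ H h8 h9 x ?_
  intro y
  rw [h10]
  have e1 : ((y * x * y⁻¹ * x⁻¹ : Sˣ) : S) - 1 = ((y : S) * x - (x : S) * y) * ((y⁻¹ * x⁻¹ : Sˣ) : S) := by
    have e2 : (x : S) * (y : S) * ((y⁻¹ * x⁻¹ : Sˣ) : S) = 1 := by
      rw [← Units.val_mul, ← Units.val_mul]
      simp
    rw [sub_mul, e2]
    simp only [Units.val_mul, mul_assoc]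
  rw [e1]
  exact (DD_idl (x : S)).right _ _ (DD_mem _ _)

/-- **THEOREM RX** -/
theorem rx_main (p n m : ℕ) (hp : p.Prime) (hn : n < p) (hm : m < p) (G : Type u) [Group G] (hG : IsPGroup p G)
    (hE : Engel n G) (S : Type u) [Ring S] (I : Ideal S) [I.IsTwoSided] (hI : ∀ b ∈ I, IsUnit (1 + b))
    (hL : LieEngel m (S ⧸ I)) (f : G →* Sˣ) (hf : Group.IsSolvable f.ker)
    (hU : ∀ u v : Sˣ, (u : S) - 1 ∈ I → ((v : S) - 1 ∈ I ∨ v ∈ f.range) →
      (fun z : Sˣ => z⁻¹ * v⁻¹ * z * v)^[m] u = 1) : Fitting G := by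
  refine p_PU2 (p_SOL (p_EXT (p_NAC p_ABE))) G Sˣ p n hp hn hG hE f hf ?_
  intro g
  obtain ⟨e, he⟩ := hG g
  have idl : IdI I.toAddSubgroup := ⟨fun a b hb => I.mul_mem_left a hb, fun a b hb => I.mul_mem_right a hb⟩
  have hL0 : ∀ a b : S, (fun z : S => z * b - b * z)^[m] a ∈ I := by
    intro a b
    have h1 := QIL_iter (Ideal.Quotient.mk I) a b m
    have h2 := hL (Ideal.Quotient.mk I a) (Ideal.Quotient.mk I b)
    rw [← Ideal.Quotient.eq_zero_iff_mem, h1]
    exact h2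
  have hx : (f g) ^ p ^ e = 1 := by rw [← map_pow, he, map_one]
  have hpow : ∀ j : ℕ, (f g) ^ j ∈ f.range := fun j => ⟨g ^ j, map_pow f g j⟩
  rcases Nat.eq_zero_or_pos m with rfl | hm0
  · refine RX_sol (f g) (RX_core (m := 1) hp le_rfl hp.one_lt S I.toAddSubgroup idl hI ?_ ?_ (f g) ?_ hx)
    · intro v u hv hu
      have h1 : u = 1 := hU u v hu (Or.inl hv)
      rw [h1]
      simp
    · intro a b
      exact hL0 _ 0
    · intro j u hu
      have h1 : u = 1 := hU u _ hu (Or.inr (hpow j))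
      rw [h1]
      simp
  · refine RX_sol (f g) (RX_core (m := m) hp hm0 hm S I.toAddSubgroup idl hI ?_ ?_ (f g) ?_ hx)
    · intro v u hv hu
      exact hU u v hu (Or.inl hv)
    · intro a b
      exact hL0 a b
    · intro j u hu
      exact hU u _ hu (Or.inr (hpow j))

end Pool.RX
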